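import Pool.Agent.H653Z.DH.Final

open MeasureTheory Pool.Agent.H653Z.DH

/-- Q1 (non-integer `α > 1`, `log Z` not arithmetic). The Lyapunov exponent exists and has the
Derrida-Hilhorst expansion with a unique constant `C ≥ 0`, and `C > 0` if and only if
`Z ^ α log Z` is integrable. Laws for which it is not integrable exist for every such `α`. -/
theorem Pool.Agent.Results.MP_132c94_pr.ANonIntegerSingularTerm.result
    (α : ℝ) (hα : 1 < α) (hαZ : ∀ k : ℤ, α ≠ k) :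
    (∀ (Ω : Type) [MeasurableSpace Ω] (P : Measure Ω) (Z : ℕ → Ω → ℝ), Setting P Z α →
      ¬ Arithmetic P (fun ω => Real.log (Z 0 ω)) →
      ∃ (L : ℝ → ℝ) (ℓ : ℕ → ℝ) (C : ℝ), IsLyapunov P Z L ∧
        (∀ k, 1 ≤ k → k ≤ ⌈α⌉₊ - 1 → 0 < ℓ k) ∧ 0 ≤ C ∧
        Expansion L (⌈α⌉₊ - 1) ℓ C (fun ε => ε ^ (2 * α)) ∧
        (∀ ℓ' C', Expansion L (⌈α⌉₊ - 1) ℓ' C' (fun ε => ε ^ (2 * α)) →
          (∀ k, 1 ≤ k → k ≤ ⌈α⌉₊ - 1 → ℓ' k = ℓ k) ∧ C' = C) ∧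
        (0 < C ↔ Integrable (fun ω => Z 0 ω ^ α * Real.log (Z 0 ω)) P)) ∧
    ∃ (Ω : Type) (_ : MeasurableSpace Ω) (P : Measure Ω) (Z : ℕ → Ω → ℝ), Setting P Z α ∧
      ¬ Arithmetic P (fun ω => Real.log (Z 0 ω)) ∧
      ¬ Integrable (fun ω => Z 0 ω ^ α * Real.log (Z 0 ω)) P :=
  ⟨fun _ _ _ _ h hna => h.final1 hα hαZ hna, exists_example (by linarith)⟩
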