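import Pool.Agent.H653Z.DH.Final

open MeasureTheory Pool.Agent.H653Z.DH

/-- Q2 (integer `α = a ≥ 1`; `log Z` may be arithmetic or not). The Lyapunov exponent exists and
has the Derrida-Hilhorst expansion with logarithmic term and a unique constant `C ≥ 0`, and
`C > 0` if and only if `Z ^ a log Z` is integrable. Non-arithmetic laws for which it is not
integrable exist for every `a`. -/
theorem Pool.Agent.Results.MP_132c94_pr.BIntegerLogTerm.result (a : ℕ) (ha : 1 ≤ a) :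
    (∀ (Ω : Type) [MeasurableSpace Ω] (P : Measure Ω) (Z : ℕ → Ω → ℝ), Setting P Z (a : ℝ) →
      ∃ (L : ℝ → ℝ) (ℓ : ℕ → ℝ) (C : ℝ), IsLyapunov P Z L ∧
        (∀ k, 1 ≤ k → k ≤ a - 1 → 0 < ℓ k) ∧ 0 ≤ C ∧
        Expansion L (a - 1) ℓ C (fun ε => ε ^ (2 * a) * Real.log (1 / ε)) ∧
        (∀ ℓ' C', Expansion L (a - 1) ℓ' C' (fun ε => ε ^ (2 * a) * Real.log (1 / ε)) →
          (∀ k, 1 ≤ k → k ≤ a - 1 → ℓ' k = ℓ k) ∧ C' = C) ∧
        (0 < C ↔ Integrable (fun ω => Z 0 ω ^ (a : ℝ) * Real.log (Z 0 ω)) P)) ∧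
    ∃ (Ω : Type) (_ : MeasurableSpace Ω) (P : Measure Ω) (Z : ℕ → Ω → ℝ), Setting P Z (a : ℝ) ∧
      ¬ Arithmetic P (fun ω => Real.log (Z 0 ω)) ∧
      ¬ Integrable (fun ω => Z 0 ω ^ (a : ℝ) * Real.log (Z 0 ω)) P :=
  ⟨fun _ _ _ _ h => h.final2 ha, exists_example (by exact_mod_cast ha)⟩
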